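import Pool.Agent.W783.Perc.Stmts

set_option autoImplicit false

open MeasureTheory Set
open Pool.Agent.W783.PC

/-!
Translations of the lattice: invariance of the bonds, of the parameters, of the measure and of
the open graph.
-/

namespace Pool.Agent.W599.PC.Gr2

theorem nn_shift {n : ℕ} (z x y : V n) : NN (x + z) (y + z) ↔ NN x y := by
  unfold NN
  have h1 : (x + z).1 - (y + z).1 = x.1 - y.1 := by simp
  have h2 : ∀ i, (x + z).2 i - (y + z).2 i = x.2 i - y.2 i := by intro i; simp
  simp only [h1, h2]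

theorem nn_symm {n : ℕ} {x y : V n} (h : NN x y) : NN y x := by
  unfold NN at *
  rw [abs_sub_comm]
  simp only [abs_sub_comm (y.2 _) (x.2 _)]
  exact h

theorem lg_shift {n : ℕ} (m : ℕ) (z : V n) (hz : ∀ i, (m : ℤ) ∣ z.2 i) (x y : V n) :
    Lg m (x + z) (y + z) ↔ Lg m x y := by
  unfold Lg
  have h1 : (x + z).1 - (y + z).1 = x.1 - y.1 := by simp
  have h2 : (x + z).2 = (y + z).2 ↔ x.2 = y.2 := by simp
  have h3 : ∀ i, ((m : ℤ) ∣ (x + z).2 i) ↔ (m : ℤ) ∣ x.2 i := by
    intro i
    show ((m : ℤ) ∣ x.2 i + z.2 i) ↔ _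
    exact dvd_add_left (hz i)
  simp only [h1, h2, h3]

theorem lg_symm {n : ℕ} {m : ℕ} {x y : V n} (h : Lg m x y) : Lg m y x := by
  obtain ⟨h1, h2, h3⟩ := h
  refine ⟨h1.symm, ?_, ?_⟩
  · intro i
    rw [← h1]
    exact h2 i
  · omega

theorem isNN_mk {n : ℕ} (x y : V n) : isNN s(x, y) ↔ NN x y := by
  constructor
  · rintro ⟨x', y', h, h'⟩
    rcases Sym2.eq_iff.mp h with ⟨h1, h2⟩ | ⟨h1, h2⟩
    · rw [h1, h2]; exact h'
    · rw [h1, h2]; exact nn_symm h'
  · intro h
    exact ⟨x, y, rfl, h⟩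

theorem isLg_mk {n : ℕ} (m : ℕ) (x y : V n) : isLg m s(x, y) ↔ Lg m x y := by
  constructor
  · rintro ⟨x', y', h, h'⟩
    rcases Sym2.eq_iff.mp h with ⟨h1, h2⟩ | ⟨h1, h2⟩
    · rw [h1, h2]; exact h'
    · rw [h1, h2]; exact lg_symm h'
  · intro h
    exact ⟨x, y, rfl, h⟩

theorem isNN_shift {n : ℕ} (z : V n) (e : Sym2 (V n)) : isNN (e.map (· + z)) ↔ isNN e := by
  induction e using Sym2.ind with
  | _ x y => rw [Sym2.map_mk]; simp only [isNN_mk]; exact nn_shift z x y

theorem isLg_shift {n : ℕ} (m : ℕ) (z : V n) (hz : ∀ i, (m : ℤ) ∣ z.2 i) (e : Sym2 (V n)) :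
    isLg m (e.map (· + z)) ↔ isLg m e := by
  induction e using Sym2.ind with
  | _ x y => rw [Sym2.map_mk]; simp only [isLg_mk]; exact lg_shift m z hz x y

theorem len_shift {n : ℕ} (z : V n) (e : Sym2 (V n)) : len (e.map (· + z)) = len e := by
  induction e using Sym2.ind with
  | _ x y =>
    rw [Sym2.map_mk]
    show ((x + z).1 - (y + z).1).natAbs = (x.1 - y.1).natAbs
    have h1 : (x + z).1 - (y + z).1 = x.1 - y.1 := by simp
    rw [h1]

/-- The translation of the coordinates as an equivalence. -/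
noncomputable def shE {n : ℕ} (z : V n) : Ix n ≃ Ix n where
  toFun := sh z
  invFun := sh (-z)
  left_inv := by
    intro c
    rcases c with x | e
    · simp [sh]
    · induction e using Sym2.ind with
      | _ x y => simp [sh]
  right_inv := by
    intro c
    rcases c with x | e
    · simp [sh]
    · induction e using Sym2.ind with
      | _ x y => simp [sh]

theorem prob_shift {n : ℕ} (a p : unitInterval) (β : NNReal) (s : ℝ) (m : ℕ) (z : V n)
    (hz : ∀ i, (m : ℤ) ∣ z.2 i) (c : Ix n) :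
    prob a p β s m (sh z c) = prob a p β s m c := by
  rcases c with x | e
  · rfl
  · show prob a p β s m (Sum.inr (e.map (· + z))) = prob a p β s m (Sum.inr e)
    have h1 := isNN_shift z e
    have h2 := isLg_shift m z hz e
    have h3 := len_shift z e
    unfold prob
    dsimp only
    by_cases h4 : isNN e
    · rw [if_pos (h1.mpr h4), if_pos h4]
    · rw [if_neg (fun h => h4 (h1.mp h)), if_neg h4]
      by_cases h5 : isLg m e
      · rw [if_pos (h2.mpr h5), if_pos h5, h3]
      · rw [if_neg (fun h => h5 (h2.mp h)), if_neg h5]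

theorem s_shift_pm (hE : S_equiv) : S_shift_pm := by
  intro n m a p β s z hz A hA
  have h := hE (Ix n) (prob a p β s m) (shE z) A hA
  have h2 : (fun c => prob a p β s m ((shE z) c)) = prob (n := n) a p β s m := by
    funext c
    exact prob_shift a p β s m z hz c
  rw [h2] at h
  exact h.symm

theorem s_shift_G : S_shift_G := by
  intro n E z hE ω R x y
  have hadj : ∀ u v : V n, (G E ω {v | v - z ∈ R}).Adj (u + z) (v + z) ↔
      (G E (fun c => ω (sh z c)) R).Adj u v := by
    intro u v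
    simp only [G, mem_ofPred_eq, add_sub_cancel_right, hE u v, ne_eq, add_left_inj]
    rfl
  let φ : (G E (fun c => ω (sh z c)) R) ≃g (G E ω {v | v - z ∈ R}) :=
    { toEquiv := Equiv.addRight z
      map_rel_iff' := by
        intro u v
        exact hadj u v }
  exact (SimpleGraph.Iso.reachable_iff (φ := φ) (u := x) (v := y)).symm

theorem s_shift_E : S_shift_E := by
  intro n m K z hz x y
  have h1 := isNN_shift z s(x, y)
  have h2 := isLg_shift m z hz s(x, y)
  have h3 := len_shift z s(x, y)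
  rw [Sym2.map_mk] at h1 h2 h3
  constructor
  · show (isNN _ ∨ (isLg m _ ∧ len _ ≤ K)) ↔ (isNN _ ∨ (isLg m _ ∧ len _ ≤ K))
    rw [h1, h2, h3]
  · show (isNN _ ∨ isLg m _) ↔ (isNN _ ∨ isLg m _)
    rw [h1, h2]

end Pool.Agent.W599.PC.Gr2
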